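import Pool.Agent.K3h18.PQ.Stm

/-!
# Subgroups of prime index with a small complement
-/

set_option autoImplicit false

namespace Pool.Agent.K3h90.PQ

open Pool.Agent.K3h18.PX Pool.Agent.K3h18.PQ

/-- the structure of the group -/
theorem grp (G : Type) [Group G] [Finite G] (H : Subgroup G) (p : ℕ) [Fact p.Prime] (hp2 : p ≠ 2)
    (hcard : Nat.card G = p * Nat.card H) (hdvd : Nat.card H ∣ (p - 1) / 2) :
    ∃ σ : G, orderOf σ = p ∧ Subgroup.zpowers σ ⊔ H = ⊤ ∧
      ∀ h ∈ H, ∃ k : ℕ, h * σ * h⁻¹ = σ ^ k ∧ (k : ZMod p) ≠ 0 ∧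
        quadraticChar (ZMod p) (k : ZMod p) = 1 := by
  have hp := (Fact.out : p.Prime)
  have hodd : p % 2 = 1 := (hp.eq_two_or_odd).resolve_left hp2
  have h2 := hp.two_le
  have hHpos : 0 < Nat.card H := Nat.card_pos
  have hHp : Nat.card H < p :=
    lt_of_le_of_lt (Nat.le_of_dvd (by omega) hdvd) (by omega)
  have hndvd : ¬ p ∣ Nat.card H := fun h => absurd (Nat.le_of_dvd hHpos h) (by omega)
  obtain ⟨σ, hσ⟩ := exists_prime_orderOf_dvd_card' (G := G) p (hcard ▸ dvd_mul_right _ _)
  have hN : Nat.card (Subgroup.zpowers σ) = p := by rw [Nat.card_zpowers, hσ]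
  have hfac : (Nat.card G).factorization p = 1 := by
    rw [hcard, Nat.factorization_mul hp.ne_zero hHpos.ne', Finsupp.add_apply,
      hp.factorization_self, Nat.factorization_eq_zero_of_not_dvd hndvd]
  have hNn : (Subgroup.zpowers σ).Normal := by
    let P : Sylow p G := Sylow.ofCard (Subgroup.zpowers σ) (by rw [hN, hfac, pow_one])
    have hP : (P : Subgroup G) = Subgroup.zpowers σ := rfl
    have hidx : (P : Subgroup G).index = Nat.card H := by
      have h1 := (P : Subgroup G).card_mul_index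
      rw [hP, hN, hcard] at h1
      rw [hP]
      exact Nat.eq_of_mul_eq_mul_left hp.pos h1
    have h3 := Sylow.card_dvd_index P
    rw [hidx] at h3
    have h4 := Nat.le_of_dvd hHpos h3
    have h5 := card_sylow_modEq_one p G
    have h6 : Nat.card (Sylow p G) = 1 := by
      have h7 : Nat.card (Sylow p G) % p = 1 % p := h5
      rw [Nat.mod_eq_of_lt (lt_of_le_of_lt h4 hHp), Nat.mod_eq_of_lt hp.one_lt] at h7
      exact h7
    have : Subsingleton (Sylow p G) := (Nat.card_eq_one_iff_unique.1 h6).1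
    have h8 : (P : Subgroup G).Normal := inferInstance
    rwa [hP] at h8
  have hcomp : Subgroup.IsComplement' (Subgroup.zpowers σ) H :=
    Subgroup.isComplement'_of_coprime (by rw [hN, hcard])
      (by rw [hN]; exact (Nat.Prime.coprime_iff_not_dvd hp).2 hndvd)
  refine ⟨σ, hσ, hcomp.sup_eq_top, ?_⟩
  intro h hh
  have h1 : h * σ * h⁻¹ ∈ Subgroup.zpowers σ :=
    hNn.conj_mem σ (Subgroup.mem_zpowers σ) h
  obtain ⟨k, hk⟩ := Submonoid.mem_powers_iff _ _ |>.1 (mem_powers_iff_mem_zpowers.2 h1)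
  have hit : ∀ j : ℕ, h ^ j * σ * (h ^ j)⁻¹ = σ ^ (k ^ j) := by
    intro j
    induction j with
    | zero => simp
    | succ j ih =>
      have e1 : h ^ (j + 1) * σ * (h ^ (j + 1))⁻¹ = h * (h ^ j * σ * (h ^ j)⁻¹) * h⁻¹ := by
        rw [pow_succ']
        group
      rw [e1, ih, ← conj_pow, ← hk, ← pow_mul, pow_succ']
  have h3 := hit (Nat.card H)
  have h4 : h ^ Nat.card H = 1 := congrArg Subtype.val (pow_card_eq_one' (x := (⟨h, hh⟩ : H)))
  rw [h4, one_mul, inv_one, mul_one] at h3
  have h5 : ((k ^ Nat.card H : ℕ) : ZMod p) = ((1 : ℕ) : ZMod p) := by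
    rw [ZMod.natCast_eq_natCast_iff, ← hσ, ← pow_eq_pow_iff_modEq, ← h3, pow_one]
  push_cast at h5
  have hk0 : (k : ZMod p) ≠ 0 := by
    intro h0
    rw [h0, zero_pow hHpos.ne'] at h5
    exact zero_ne_one h5
  refine ⟨k, hk.symm, hk0, ?_⟩
  rw [quadraticChar_one_iff_isSquare hk0, ZMod.euler_criterion p hk0]
  obtain ⟨t, ht⟩ := hdvd
  have h6 : p / 2 = (p - 1) / 2 := by omega
  rw [h6, ht, pow_mul, h5, one_pow]

theorem t_PRM (hS : St_SQE) (hG : St_GSS) : St_PRM := by
  intro G _ _ H p hp hp2 hcard hdvd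
  have := Fact.mk hp
  obtain ⟨σ, hσ, htop, hH⟩ := grp G H p hp2 hcard hdvd
  apply PP_of_free
  intro B _ _ _ _
  set s : B →ₗ[ℤ] B := lin B σ with hsdef
  have hs : ∀ (i : ℕ) (x : B), (s ^ i) x = (σ ^ i) • x := by
    intro i
    induction i with
    | zero => intro x; rw [pow_zero, pow_zero, one_smul]; rfl
    | succ i ih =>
      intro x
      rw [pow_succ', Module.End.mul_apply, ih, pow_succ', mul_smul]
      rfl
  have hmod : ∀ i j : ℕ, (i : ZMod p) = (j : ZMod p) → s ^ i = s ^ j := by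
    intro i j hij
    ext x
    rw [hs, hs]
    congr 1
    rw [pow_eq_pow_iff_modEq, hσ]
    exact (ZMod.natCast_eq_natCast_iff _ _ _).1 hij
  have hsp : s ^ p = 1 := by
    rw [← pow_zero s]
    apply hmod
    simp
  set L : (ZMod p → ℤ) → (B →ₗ[ℤ] B) := fun c => ∑ a : ZMod p, c a • s ^ a.val with hL
  have hLa : ∀ c x, L c x = ∑ a : ZMod p, c a • (s ^ a.val) x := by
    intro c x
    simp [hL, LinearMap.sum_apply]
  have hinv : ∀ c : ZMod p → ℤ, (∀ k : ZMod p, quadraticChar (ZMod p) k = 1 → ∀ a, c (k * a) = c a) →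
      ∀ x ∈ fx B H, L c x ∈ fx B H := by
    intro c hc x hx h hh
    obtain ⟨k, hk, hk0, hk1⟩ := hH h hh
    have h1 : ∀ a : ZMod p, lin B h ((s ^ a.val) x) = (s ^ ((k : ZMod p) * a).val) x := by
      intro a
      rw [lin_apply, hs]
      have e1 : h • σ ^ a.val • x = (h * σ * h⁻¹) ^ a.val • (h • x) := by
        rw [conj_pow, smul_smul, smul_smul]
        congr 1
        group
      rw [e1, hx h hh, hk, ← pow_mul, ← hs]
      rw [hmod (k * a.val) ((k : ZMod p) * a).val]
      push_cast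
      rw [ZMod.natCast_zmod_val, ZMod.natCast_zmod_val]
    change lin B h (L c x) = L c x
    rw [hLa, map_sum]
    have h2 : ∀ a : ZMod p, lin B h (c a • (s ^ a.val) x) =
        c ((k : ZMod p) * a) • (s ^ ((k : ZMod p) * a).val) x := by
      intro a
      rw [map_smul, h1, hc _ hk1]
    rw [Finset.sum_congr rfl fun a _ => h2 a]
    exact Equiv.sum_comp (Equiv.mulLeft₀ (k : ZMod p) hk0) fun a => c a • (s ^ a.val) x
  set T : B →ₗ[ℤ] B := L fun _ => 1 with hT
  set S : B →ₗ[ℤ] B := L fun a => quadraticChar (ZMod p) a with hSdef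
  have hTa : ∀ x, T x = ∑ a : ZMod p, (s ^ a.val) x := by
    intro x
    rw [hT, hLa]
    simp
  have hTC : ∀ x ∈ fx B H, T x ∈ fx B H := fun x hx => hinv _ (fun k _ a => rfl) x hx
  have hSC : ∀ x ∈ fx B H, S x ∈ fx B H := fun x hx => hinv _ (fun k hk a => by
    rw [map_mul, hk, one_mul]) x hx
  have hTσ : ∀ x, s (T x) = T x := by
    intro x
    rw [hTa, map_sum]
    have h2 : ∀ a : ZMod p, s ((s ^ a.val) x) = (s ^ (a + 1).val) x := by
      intro a
      rw [← Module.End.mul_apply, ← pow_succ', hmod (a.val + 1) (a + 1).val]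
      push_cast
      rw [ZMod.natCast_zmod_val, ZMod.natCast_zmod_val]
    rw [Finset.sum_congr rfl fun a _ => h2 a]
    exact Equiv.sum_comp (Equiv.addRight (1 : ZMod p)) fun a => (s ^ a.val) x
  have hfxtop : ∀ x ∈ fx B H, s x = x → x ∈ fx B (⊤ : Subgroup G) := by
    intro x hx hsx g _
    have h1 : Subgroup.zpowers σ ⊔ H ≤ MulAction.stabilizer G x := by
      rw [sup_le_iff, Subgroup.zpowers_le]
      exact ⟨hsx, fun h hh => hx h hh⟩
    rw [htop] at h1
    exact h1 (Subgroup.mem_top g)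
  have hTtop : ∀ x ∈ fx B H, T x ∈ fx B (⊤ : Subgroup G) := fun x hx =>
    hfxtop _ (hTC x hx) (hTσ x)
  have hle : fx B (⊤ : Subgroup G) ≤ fx B H := fun x hx u _ => hx u (Subgroup.mem_top u)
  have hTp : ∀ x ∈ fx B (⊤ : Subgroup G), T x = (p : ℤ) • x := by
    intro x hx
    rw [hTa]
    have h1 : ∀ a : ZMod p, (s ^ a.val) x = x := fun a => by
      rw [hs]
      exact hx _ (Subgroup.mem_top _)
    rw [Finset.sum_congr rfl fun a _ => h1 a, Finset.sum_const, Finset.card_univ, ZMod.card]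
    simp
  have hcomm : T * S = S * T := by
    have : Commute T S := by
      rw [hT, hSdef, hL]
      refine Commute.sum_left _ _ _ fun a _ => Commute.sum_right _ _ _ fun b _ => ?_
      exact ((Commute.pow_pow_self s a.val b.val).smul_right _).smul_left _
    exact this
  -- the linear map `T : C → D`
  let T' : fx B H →ₗ[ℤ] fx B (⊤ : Subgroup G) :=
    (T.comp (fx B H).subtype).codRestrict _ fun x => hTtop x x.2
  have hT'c : ∀ x, ((T' x : fx B (⊤ : Subgroup G)) : B) = T x := fun x => rfl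
  have h1 := Submodule.finrank_quotient_add_finrank (LinearMap.ker T')
  rw [T'.quotKerEquivRange.finrank_eq] at h1
  have h2 : Module.finrank ℤ (LinearMap.range T') = Module.finrank ℤ (fx B (⊤ : Subgroup G)) := by
    apply le_antisymm
    · exact Submodule.finrank_le _
    · let j : fx B (⊤ : Subgroup G) →ₗ[ℤ] LinearMap.range T' :=
        (T'.comp (Submodule.inclusion hle)).codRestrict _ fun x => ⟨_, rfl⟩
      apply LinearMap.finrank_le_finrank_of_injective (f := j)
      intro x y hxy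
      have h3 : T x = T y := congrArg (fun z => ((z : fx B (⊤ : Subgroup G)) : B))
        (congrArg Subtype.val hxy)
      rw [hTp x x.2, hTp y y.2] at h3
      have h4 : (p : ℤ) ≠ 0 := by exact_mod_cast hp.ne_zero
      exact Subtype.ext (smul_right_injective B h4 h3)
  -- the kernel
  have hSK : ∀ x ∈ LinearMap.ker T', ∃ y ∈ LinearMap.ker T', (y : B) = S x := by
    intro x hx
    refine ⟨⟨S x, hSC x x.2⟩, ?_, rfl⟩
    rw [LinearMap.mem_ker] at hx ⊢
    apply Subtype.ext
    rw [hT'c]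
    have h3 : T x = 0 := by
      rw [← hT'c, hx]
      rfl
    change T (S x) = 0
    rw [← Module.End.mul_apply, hcomm, Module.End.mul_apply, h3, map_zero]
  let S1 : fx B H →ₗ[ℤ] fx B H := (S.comp (fx B H).subtype).codRestrict _ fun x => hSC x x.2
  have hS1 : ∀ x ∈ LinearMap.ker T', S1 x ∈ LinearMap.ker T' := by
    intro x hx
    obtain ⟨y, hy, hyx⟩ := hSK x hx
    have h3 : S1 x = y := Subtype.ext hyx.symm
    rw [h3]
    exact hy
  let S2 : LinearMap.ker T' →ₗ[ℤ] LinearMap.ker T' := S1.restrict hS1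
  have hS2c : ∀ x, (((S2 x : LinearMap.ker T') : fx B H) : B) = S x := fun x => rfl
  have h3 : Even (Module.finrank ℤ (LinearMap.ker T')) := by
    apply hS _ S2 (quadraticChar (ZMod p) (-1) * (p : ℤ))
    · intro b
      apply Subtype.ext
      apply Subtype.ext
      have h4 : T b = 0 := by
        rw [← hT'c, LinearMap.mem_ker.1 b.2]
        rfl
      rw [hTa] at h4
      have h5 := hG p hp2 B s hsp b h4
      have h6 : ∀ x, S x = ∑ a : ZMod p, quadraticChar (ZMod p) a • (s ^ a.val) x := fun x => by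
        rw [hSdef, hLa]
      rw [← h6, ← h6] at h5
      exact h5
    · rintro ⟨r, hr⟩
      have h4 : (quadraticChar (ZMod p) (-1) * (p : ℤ)).natAbs = p := by
        rw [Int.natAbs_mul, Int.natAbs_natCast]
        have h5 : (quadraticChar (ZMod p) (-1)).natAbs = 1 := by
          rcases quadraticChar_dichotomy (F := ZMod p) (a := -1) (by simp) with h6 | h6 <;>
            rw [h6] <;> rfl
        rw [h5, one_mul]
      rw [hr, Int.natAbs_mul] at h4
      have h5 : IsSquare p := ⟨r.natAbs, h4.symm⟩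
      exact hp.prime.not_isSquare h5
  rw [← h1, h2, add_right_comm]
  exact Even.add ⟨_, rfl⟩ h3

end Pool.Agent.K3h90.PQ
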